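import Pool.Agent.MP_1246c0_nt.H12.SpecN

/-! The inequality for a fixed set of small primes. -/

namespace Pool.Agent.MP_1246c0_nt.H12

open Finset
open Pool.Agent.MP_1246c0_nt.H55 (kD)

namespace F1

theorem ind_pos {p : Prop} (h : p) : ind p = 1 := if_pos h

theorem ind_neg {p : Prop} (h : ¬p) : ind p = 0 := if_neg h

theorem ind_nonneg (p : Prop) : 0 ≤ ind p := by
  unfold ind
  split_ifs <;> norm_num

theorem ind_le (p : Prop) : ind p ≤ 1 := by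
  unfold ind
  split_ifs <;> norm_num

theorem ind_abs (p : Prop) : |ind p| ≤ 1 := by
  rw [abs_of_nonneg (ind_nonneg p)]
  exact ind_le p

section Mat

variable {ι : Type} [Fintype ι] [DecidableEq ι]

theorem nice_congr {lv : ι → ℕ} {e : ι → F2} {B : Finset ι} {S S' : Matrix ι ι F2} {tp j0 : ℕ}
    (h : ∀ i j, ¬(i ∈ B ∧ j ∈ B) → S' i j = S i j) (N : Nice lv e B S tp j0) :
    Nice lv e B S' tp j0 where
  cross l hl l' hl' he := by
    rw [h l' l fun k => hl' k.1, h l l' fun k => hl' k.2]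
    exact N.cross l hl l' hl' he
  top := N.top
  cnt := N.cnt
  low := N.low
  sml := N.sml
  det w h1 h2 := by
    obtain ⟨l, a, b, c, d⟩ := N.det w h1 h2
    refine ⟨l, a, b, c, d ▸ sum_congr rfl fun l' _ => ?_⟩
    by_cases hl' : l' ∈ B
    · rw [h1 l' hl', mul_zero, mul_zero]
    · rw [h l l' fun k => hl' k.2]
  ev := N.ev
  es := N.es

theorem nice_crs {lv : ι → ℕ} {e : ι → F2} {B : Finset ι} {S : Matrix ι ι F2} {tp j0 : ℕ} :
    Nice lv e B (crs B S) tp j0 ↔ Nice lv e B S tp j0 :=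
  ⟨nice_congr fun _ _ h => (if_neg h).symm, nice_congr fun _ _ h => if_neg h⟩

theorem bad_act {Λ : Type} [CommRing Λ] (au : Λ →+* F2) (τ : Λ) (N f : ℕ) (lv : ι → ℕ) (c : ι → Λ)
    (S H : Matrix ι ι Λ) (a : ℕ) (b : Bool) :
    BadN au τ N f lv c (act a lv S + H) a b ↔ BadN au τ N f lv c (S + H) a b := by
  unfold BadN
  rw [show (act a lv S + H).submatrix (Subtype.val : {l // a ≤ lv l} → ι) Subtype.val =
    (S + H).submatrix Subtype.val Subtype.val from ?_]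
  ext i j
  simp only [Matrix.submatrix_apply, Matrix.add_apply, act, if_pos (And.intro i.2 j.2)]

theorem le_top {lv : ι → ℕ} {e : ι → F2} {B : Finset ι} {S S' : Matrix ι ι F2} {tp j0 a f : ℕ}
    (N : Nice lv e B S tp j0) (h : BadL lv e S' a f) : a ≤ tp := by
  by_contra ha
  obtain ⟨q, -, -, h1, h2⟩ := N.top
  obtain ⟨p, -, -, g, hg, -, h3⟩ := h
  refine hg (funext fun l => ?_)
  have h4 : ∀ l : {l // a ≤ lv l}, l.1 = q := fun l => h2 _ (by have := l.2; omega)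
  rw [sum_eq_single l (fun l' _ hne => absurd (Subtype.ext ((h4 l').trans (h4 l).symm)) hne)
    (by simp)] at h3
  simpa [xv, h4 l, h1] using h3

end Mat

/-- the data chosen for a layer -/
structure Md (n : ℕ) where
  D : Dat n
  Λ : Type
  [cr : CommRing Λ]
  [fin : Finite Λ]
  st : Λ →+* Λ
  au : Λ →+* F2
  g : Λ
  lg : LG st au g (2 ^ n)

attribute [instance] Md.cr Md.fin

/-- failure of higher order for a labelled family of primes -/
def Md.Bad {n : ℕ} (K : Md n) {ι : Type} [Fintype ι] [DecidableEq ι] (pr : ι → ℕ) (P a : ℕ)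
    (b : Bool) : Prop :=
  BadN K.au (K.g - 1) (2 ^ n) (2 ^ n) (fun i => lev (pr i)) (fun i => cv K.g (K.D.cc (pr i)))
    (SmN K.D K.g pr P) a b

/-- good labelled families -/
abbrev Nc (Sg : Finset ℕ) {m : ℕ} (p : Fin m → ℕ) (P tp j0 : ℕ) : Prop :=
  Nice (fun i => lev (prs Sg p i)) (fun i => eps (prs Sg p i)) (BB Sg m) (Sm0 (prs Sg p) P) tp j0

theorem point (hQ : SQR) (hC : SCRIT) (K : ∀ n, Md n) {ι : Type} [Fintype ι] [DecidableEq ι]
    {pr : ι → ℕ} {P A tp j0 : ℕ} {B : Finset ι} (hA : 3 ≤ A) (N : Prop)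
    (hN : N → Nice (fun i => lev (pr i)) (fun i => eps (pr i)) B (Sm0 pr P) tp j0 ∧ Lab pr P) :
    ind (N ∧ G1 (fun i => lev (pr i)) (fun i => eps (pr i)) (Sm0 pr P) A tp j0) ≤
      ind ((P * ∏ i, pr i) % 8 = 5 ∧ Green2 (kD (P * ∏ i, pr i))) +
      ∑ a ∈ Ioc A tp, (ind (N ∧ (K (nn tp j0 a)).Bad pr P a false) +
        ind (N ∧ (K (nn tp j0 a)).Bad pr P (a - 1) true)) := by
  have h0 : ∀ a ∈ Ioc A tp, 0 ≤ ind (N ∧ (K (nn tp j0 a)).Bad pr P a false) +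
      ind (N ∧ (K (nn tp j0 a)).Bad pr P (a - 1) true) := fun _ _ =>
    add_nonneg (ind_nonneg _) (ind_nonneg _)
  by_cases h : N ∧ G1 (fun i => lev (pr i)) (fun i => eps (pr i)) (Sm0 pr P) A tp j0
  swap
  · rw [ind_neg h]
    exact add_nonneg (ind_nonneg _) (sum_nonneg h0)
  obtain ⟨h1, h2⟩ := hN h.1
  refine (ind_le _).trans ?_
  by_cases hG : Green2 (kD (P * ∏ i, pr i))
  · rw [ind_pos ⟨(hQ.lab ι pr P h2).2.1, hG⟩]
    exact le_add_of_nonneg_right (sum_nonneg h0)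
  obtain ⟨a, h3, h4⟩ := hC ι pr P h2 hG
  have ha : a ∈ Ioc A tp := mem_Ioc.2 ⟨not_le.1 fun k => h.2.1 a k h3, le_top h1 h3⟩
  refine le_add_of_nonneg_of_le (ind_nonneg _) (le_trans ?_ (single_le_sum h0 ha))
  have hn : nn tp j0 a + 3 ≤ a := by
    have := (mem_Ioc.1 ha).1
    have : nn tp j0 a ≤ a - 3 := min_le_left _ _
    omega
  rcases h4 _ (2 ^ nn tp j0 a) (K _).D _ _ _ _ (K _).lg hn with k | k | k
  · exact absurd k (h.2.2 a ha)
  · rw [ind_pos ⟨h.1, k⟩]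
    exact le_add_of_nonneg_right (ind_nonneg _)
  · rw [ind_pos (p := N ∧ (K (nn tp j0 a)).Bad pr P (a - 1) true) ⟨h.1, k⟩]
    exact le_add_of_nonneg_left (ind_nonneg _)

theorem bil (hD : SDAT) (D : Dat 0) {Y T : ℕ} {δ : ℝ} (h : Bil D.rr (Gd 0) Y T δ) :
    Bil (fun p p' (_ : Unit) => lg p p') (Gd 0) Y T δ := by
  intro s hs u v h1 h2 h3 h4 T' hT
  refine le_of_eq_of_le (congrArg abs (sum_congr rfl fun p _ => sum_congr rfl fun p' _ => ?_))
    (h univ univ_nonempty u v h1 h2 h3 h4 T' hT)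
  split_ifs with k
  · by_cases hu : u p = 0
    · rw [hu, zero_mul, zero_mul, zero_mul]
    by_cases hv : v p' = 0
    · rw [hv, mul_zero, zero_mul, zero_mul]
    rw [hD.ar 0 D p p' (h3 p hu).1 (h4 p' hv).1 k.2, hs.eq_univ]
    simp
  · rfl

theorem ee_mono {N N' : ℕ} (h : N ≤ N') (z m T : ℕ) : EE N z m T ≤ EE N' z m T := by
  unfold EE
  gcongr
  norm_num

variable {Sg : Finset ℕ} {m T Y : ℕ} {w w' : ℕ → ℝ}

/-- admissible tuples -/
structure Adm (Sg : Finset ℕ) {m : ℕ} (p : Fin m → ℕ) (P : ℕ) : Prop where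
  inj : (prs Sg p).Injective
  odd : ∀ i, Gd 0 (prs Sg p i)
  prime : P.Prime
  md : P % 8 = 5
  ne : ∀ i, prs Sg p i ≠ P

theorem mono (hF : SCFG) (hS : ∀ l ∈ Sg, Gd 0 l) (hw : Wt Sg Y w) (hw' : Wt Sg Y w')
    (h8 : ∀ P, w' P ≠ 0 → P % 8 = 5) {Ψ Ψ' : (Fin m → ℕ) → ℕ → ℝ}
    (h : ∀ p P, Adm Sg p P → Ψ p P ≤ Ψ' p P) : TS m T w w' Ψ ≤ TS m T w w' Ψ' := by
  refine hF.mono m T w w' Ψ Ψ' (fun p => (hw p).1) (fun p => (hw' p).1)
    fun p P h1 h2 h3 h4 _ => h p P ⟨?_, ?_, ((hw' P).2.2 h4).1.1, h8 P h4, ?_⟩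
  · refine Subtype.val_injective.sumElim h1 fun l i e => ((hw _).2.2 (h3 i)).2.2 ?_
    rw [← e]
    exact l.2
  · rintro (l | i)
    · exact hS l l.2
    · exact ((hw _).2.2 (h3 i)).1
  · rintro (l | i)
    · exact fun e => ((hw' P).2.2 h4).2.2 (e ▸ l.2)
    · exact h2 i

theorem sub (hF : SCFG) (Ψ Ψ' : (Fin m → ℕ) → ℕ → ℝ) :
    TS m T w w' (fun p P => Ψ p P - Ψ' p P) = TS m T w w' Ψ - TS m T w w' Ψ' := by
  rw [eq_sub_iff_add_eq, ← hF.add]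
  simp only [sub_add_cancel]

theorem low (hA : SAVG) (hL : SLAM) (hQ : SQR) (hD : SDAT) (hY : SSYM) (hE : SEQ) (hF : SCFG)
    (hS : ∀ l ∈ Sg, Gd 0 l) (hw : Wt Sg Y w) (hw' : Wt Sg Y w') (h8 : ∀ P, w' P ≠ 0 → P % 8 = 5)
    {δ c : ℝ} (hδ : 0 ≤ δ) (D : Dat 0) (hB : Bil D.rr (Gd 0) Y T δ) {A tp j0 : ℕ}
    (hR : ∀ (lv : Sg ⊕ Fin m → ℕ) (e : Sg ⊕ Fin m → F2) (S : Matrix _ _ F2),
      Nice lv e (BB Sg m) S tp j0 → Sym i2 i2 S e (BB Sg m) →
      c ≤ Ex (Hs i2 (BB Sg m) (BB Sg m)) fun H => ind (G1 lv e (S + H) A tp j0)) :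
    c * TS m T w w' (fun p P => ind (Nc Sg p P tp j0)) - δ * T * EE (2 ^ 0) Sg.card m T ≤
      TS m T w w' fun p P => ind (Nc Sg p P tp j0 ∧
        G1 (fun i => lev (prs Sg p i)) (fun i => eps (prs Sg p i)) (Sm0 (prs Sg p) P) A tp j0) := by
  have h := (abs_le.1 (hE 0 D F2 i2 i2 1 Sg m T Y 0 w w' δ
    (fun lv e S _ M => ind (Nice lv e (BB Sg m) S tp j0 ∧ G1 lv e M A tp j0)) hL.zero.1 hS le_rfl
    hw hw' hδ hB (bil hD D hB) fun _ _ _ _ _ => ind_abs _)).1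
  have h0 : ∀ (p : Fin m → ℕ) (P : ℕ), Adm Sg p P →
      act 0 (fun i => lev (prs Sg p i)) (SmN D 1 (prs Sg p) P) = Sm0 (prs Sg p) P := by
    intro p P k
    ext i j
    simp only [act, zero_le, and_self, if_true, SmN, Sm0, hL.zero.2]
    exact (hY.zero D _ _ _ (k.odd i) (k.odd j)).1
  rw [← hF.cmul, sub_le_iff_le_add, ← sub_le_iff_le_add', ← neg_le_neg_iff, neg_sub, ← sub hF]
  refine h.trans (mono hF hS hw hw' h8 fun p P k => ?_)
  simp only [h0 p P k, nice_crs, zero_le, filter_true]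
  refine sub_le_sub_left ?_ _
  by_cases hN : Nc Sg p P tp j0
  · simp only [hN, true_and, ind_pos trivial, mul_one]
    exact hR _ _ _ hN fun l _ l' _ => hQ.sym _ _ P k.inj k.odd l (mem_univ _) l' (mem_univ _)
  · simp only [hN, false_and, ind_neg not_false, mul_zero, hA.const, le_refl]

theorem upp (hA : SAVG) (hD : SDAT) (hY : SSYM) (hE : SEQ) (hF : SCFG)
    (hS : ∀ l ∈ Sg, Gd 0 l) (hw : Wt Sg Y w) (hw' : Wt Sg Y w') (h8 : ∀ P, w' P ≠ 0 → P % 8 = 5)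
    {δ c : ℝ} (hδ : 0 ≤ δ) (D : Dat 0) (hB : Bil D.rr (Gd 0) Y T δ) {n a tp j0 : ℕ} (K : Md n)
    (hK : Bil K.D.rr (Gd n) Y T δ) (hn : n ≤ a) (b : Bool)
    (hR : ∀ (lv : Sg ⊕ Fin m → ℕ) (e : Sg ⊕ Fin m → F2) (S0 : Matrix _ _ F2) (S : Matrix _ _ K.Λ)
      (c' : _ → K.Λ), Nice lv e (BB Sg m) S0 tp j0 →
      Sym K.st K.au S c' ((BB Sg m).filter fun l => a ≤ lv l) → (∀ l, a ≤ lv l → K.au (c' l) = e l) →
      (∀ l ∈ BB Sg m, ∀ l', l' ∉ BB Sg m → a ≤ lv l → a ≤ lv l' →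
        K.au (S l l') = S0 l l' ∧ K.au (S l' l) = S0 l' l) →
      Ex (Hs K.st ((BB Sg m).filter fun l => a ≤ lv l) ((BB Sg m).filter fun l => a ≤ lv l))
        (fun H => ind (BadN K.au (K.g - 1) (2 ^ n) (2 ^ n) lv c' (S + H) a b)) ≤ c) :
    TS m T w w' (fun p P => ind (Nc Sg p P tp j0 ∧ K.Bad (prs Sg p) P a b)) ≤
      c * TS m T w w' (fun p P => ind (Nc Sg p P tp j0)) + δ * T * EE (2 ^ n) Sg.card m T := by
  have h := (abs_le.1 (hE n K.D K.Λ K.st K.au K.g Sg m T Y a w w' δ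
    (fun lv e S c' M => ind (Nice lv e (BB Sg m) S tp j0 ∧
      BadN K.au (K.g - 1) (2 ^ n) (2 ^ n) lv c' M a b)) K.lg hS hn
    hw hw' hδ hK (bil hD D hB) fun _ _ _ _ _ => ind_abs _)).2
  rw [← hF.cmul, ← sub_le_iff_le_add', ← sub hF]
  refine (mono hF hS hw hw' h8 fun p P k => ?_).trans h
  have h1 := bad_act K.au (K.g - 1) (2 ^ n) (2 ^ n) (fun i => lev (prs Sg p i))
    (fun i => cv K.g (K.D.cc (prs Sg p i))) (SmN K.D K.g (prs Sg p) P) 0 a b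
  rw [add_zero, add_zero] at h1
  simp only [h1, bad_act, nice_crs]
  refine sub_le_sub_left ?_ _
  have hG : ∀ i, a ≤ lev (prs Sg p i) → Gd n (prs Sg p i) := fun i hi =>
    ⟨(k.odd i).1, (k.odd i).2.1, hn.trans hi⟩
  by_cases hN : Nc Sg p P tp j0
  · simp only [hN, true_and, ind_pos trivial, mul_one]
    exact hR _ _ _ _ _ hN
      (hY.sym n K.D _ _ _ _ _ _ P _ K.lg k.inj fun i hi => hG i (mem_filter.1 hi).2)
      (fun l hl => (hY.aus n K.D _ _ _ _ _ _ P l l K.lg (hG l hl) (hG l hl)).2)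
      fun l _ l' _ hl hl' => ⟨(hY.aus n K.D _ _ _ _ _ _ P l l' K.lg (hG l hl) (hG l' hl')).1,
        (hY.aus n K.D _ _ _ _ _ _ P l' l K.lg (hG l' hl') (hG l hl)).1⟩
  · simp only [hN, false_and, ind_neg not_false, mul_zero, hA.const, le_refl]

end F1

open F1 in
theorem rowF1 : OfF1 := by
  rintro hA hL hQ hD hY hC ⟨C, j1, hR0⟩ ⟨C', j2, hRN⟩ hP hE hF
  obtain ⟨A, j0, c, hc, hj, h3, hp⟩ := hP C C' (max (max j1 j2) 20)
  have K : ∀ n, Md n := fun n => Classical.choice (by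
    obtain ⟨D⟩ := hD.ex n
    obtain ⟨Λ, _, _, st, au, g, h⟩ := hL.ex n
    exact ⟨⟨D, Λ, st, au, g, h⟩⟩)
  refine ⟨A, j0, c, by omega, hc, fun tp Sg m T Y w w' δ ht hS hw hw' h8 hδ hB => ?_⟩
  set N := TS m T w w' fun p P => ind (Nc Sg p P tp j0) with hN
  set r := δ * T * EE (2 ^ ((j0 + tp) / 5)) Sg.card m T with hr
  have hr' : ∀ n ≤ (j0 + tp) / 5, δ * T * EE (2 ^ n) Sg.card m T ≤ r := fun n hn =>
    mul_le_mul_of_nonneg_left (ee_mono (Nat.pow_le_pow_right two_pos hn) _ _ _) (by positivity)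
  have hr0 : 0 ≤ r := by
    unfold EE at hr
    rw [hr]
    positivity
  have hN0 : 0 ≤ N := by
    have := mono (T := T) (m := m) hF hS hw hw' h8 (Ψ := fun p P => 0 * ind (Nc Sg p P tp j0))
      (Ψ' := fun p P => ind (Nc Sg p P tp j0)) fun p P _ => by rw [zero_mul]; exact ind_nonneg _
    rwa [hF.cmul, zero_mul] at this
  have hB0 := hB 0 (Nat.zero_le _) (K 0).D
  have h1 := low (m := m) hA hL hQ hD hY hE hF hS hw hw' h8 hδ (K 0).D hB0
    fun lv e S k1 k2 => hR0 _ lv e _ S tp j0 A k1 k2 (by omega) ht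
  have h2 := mono (T := T) (m := m) hF hS hw hw' h8 fun p P k => point hQ hC K h3 (Nc Sg p P tp j0)
    fun h => ⟨h, k.inj, k.odd, k.prime, k.md, k.ne, h.es, h.ev⟩
  rw [hF.add, hF.sum] at h2
  have h4 : ∀ a ∈ Ioc A tp, TS m T w w' (fun p P =>
      ind (Nc Sg p P tp j0 ∧ (K (nn tp j0 a)).Bad (prs Sg p) P a false) +
      ind (Nc Sg p P tp j0 ∧ (K (nn tp j0 a)).Bad (prs Sg p) P (a - 1) true)) ≤
      2 * (C' * (9 / 10) ^ 2 ^ nn tp j0 a) * N + 2 * r := by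
    intro a ha
    obtain ⟨a1, a2⟩ := mem_Ioc.1 ha
    have n1 : nn tp j0 a ≤ a - 3 := min_le_left _ _
    have n2 : nn tp j0 a ≤ (j0 + tp) / 5 :=
      (min_le_right _ _).trans (Nat.div_le_div_right (Nat.sub_le _ _))
    have u1 := upp hA hD hY hE hF hS hw hw' h8 hδ (K 0).D hB0 (K (nn tp j0 a)) (hB _ n2 _)
      (m := m) (a := a) (by omega) false fun lv e S0 S c' k1 k2 k3 k4 =>
        hRN _ _ _ _ _ lv e _ S0 S c' tp j0 a a false (K _).lg.lr k1 (by omega) a2 (by simp) k2 k3 k4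
    have u2 := upp hA hD hY hE hF hS hw hw' h8 hδ (K 0).D hB0 (K (nn tp j0 a)) (hB _ n2 _)
      (m := m) (a := a - 1) (by omega) true fun lv e S0 S c' k1 k2 k3 k4 =>
        hRN _ _ _ _ _ lv e _ S0 S c' tp j0 a (a - 1) true (K _).lg.lr k1 (by omega) a2
          (by simp only [if_true]; omega) k2 k3 k4
    have := hr' _ n2
    rw [hF.add]
    linarith
  have h5 := sum_le_sum h4
  rw [sum_add_distrib, ← sum_mul, sum_const, Nat.card_Ioc, nsmul_eq_mul] at h5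
  have h6 := mul_le_mul_of_nonneg_right (hp tp) hN0
  have h7 := hr' 0 (Nat.zero_le _)
  have h8 : ((tp - A : ℕ) : ℝ) * (2 * r) ≤ tp * (2 * r) :=
    mul_le_mul_of_nonneg_right (by exact_mod_cast Nat.sub_le _ _) (by positivity)
  rw [← hN] at h1
  rw [sub_mul] at h6
  have h9 := h1.trans h2
  linear_combination h5 + h6 + h7 + h8 + h9

end Pool.Agent.MP_1246c0_nt.H12
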