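import Pool.Agent.MP_1246c0_nt.H34.SOLb

/-! Stable ramified classes give a solution of the relations. -/

namespace Pool.Agent.MP_1246c0_nt.H12

open NumberField IsDedekindDomain Finset Pool.Agent.MP_db5b97_nt.H85

namespace SOL

theorem qr_one (l : ℕ) : qr (1 : ZMod l) = 0 := if_pos IsSquare.one

theorem qr_prod (hQ : SQR) {l : ℕ} (hl : Gd 0 l) {ι : Type} (S : Finset ι) (f : ι → ZMod l)
    (hf : ∀ i ∈ S, f i ≠ 0) : qr (∏ i ∈ S, f i) = ∑ i ∈ S, qr (f i) := by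
  classical
  have := Fact.mk hl.1
  induction S using Finset.induction_on with
  | empty => simpa using qr_one l
  | insert i S hi ih =>
    rw [prod_insert hi, sum_insert hi, hQ.mul l _ _ hl (hf i (mem_insert_self _ _))
      (prod_ne_zero_iff.2 fun k hk => hf k (mem_insert_of_mem hk)),
      ih fun k hk => hf k (mem_insert_of_mem hk)]

theorem qr_pow (hQ : SQR) {l : ℕ} (hl : Gd 0 l) {h : ℕ} (hh : Odd h) {x : ZMod l} (hx : x ≠ 0) :
    qr (x ^ h) = qr x := by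
  have := qr_prod hQ hl (range h) (fun _ => x) fun _ _ => hx
  rwa [prod_const, sum_const, card_range, nsmul_eq_mul, (ZMod.natCast_eq_one_iff_odd).2 hh,
    one_mul] at this

variable {L : Type} [Field L] [NumberField L] {d M m : ℕ} {s θ : L} {σ γ : L ≃ₐ[ℚ] L}

/-- compatibility of the chosen primes with the data in the lower layer -/
structure Ctx (d : ℕ) (σ γ : L ≃ₐ[ℚ] L) {n : ℕ} (D : Dat n) (j : D.F →+* L) (w : ℕ → Pr L 2) :
    Prop where
  act : ∀ (i : ℕ) (x : D.F), (γ ^ i)⁻¹ • j x = j (D.γ⁻¹ ^ (i % 2 ^ n) • x)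
  fs : ∀ x, σ • j x = j x
  fg : ∀ x, γ ^ 2 ^ n • j x = j x
  mem : ∀ l ∈ d.primeFactors, (l : 𝓞 L) ∈ (w l).1.asIdeal
  ker : ∀ l ∈ d.primeFactors, n ≤ lev l →
    ∀ z, D.φ l z = 0 ↔ RingOfIntegers.mapRingHom j z ∈ (w l).1.asIdeal

theorem ctx (hT : STW) (hP : STP) (T : Tw L d M s θ σ γ) {n : ℕ} (hn : n ≤ M) (D : Dat n)
    (w0 : Pr L 2) : ∃ j w, Ctx d σ γ D j w := by
  obtain ⟨j, -, h1, h2⟩ := hT.emb L D.F d M n s θ σ γ D.θ D.γ T D.cy hn
  have hg : ∀ x, γ ^ 2 ^ n • j x = j x := fun x => ((h2 _).1 ⟨x, rfl⟩).2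
  have h3 : ∀ (i : ℕ) (x : D.F), (γ ^ i)⁻¹ • j x = j (D.γ⁻¹ ^ i • x) := fun i x => by
    induction i with
    | zero => simp
    | succ i ih =>
      rw [pow_succ, mul_inv_rev, mul_smul, ih, pow_succ', mul_smul, inv_smul_eq_iff]
      refine Eq.trans ?_ (h1 _)
      exact congrArg j (smul_inv_smul D.γ _).symm
  have h4 : ∀ l, ∃ w : Pr L 2, l ∈ d.primeFactors → (l : 𝓞 L) ∈ w.1.asIdeal ∧ (n ≤ lev l →
      ∀ z, D.φ l z = 0 ↔ RingOfIntegers.mapRingHom j z ∈ w.1.asIdeal) := fun l => by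
    by_cases hl : l ∈ d.primeFactors
    · by_cases h : n ≤ lev l
      · have hG := gd T.md hl h
        obtain ⟨ψ, hψ, -⟩ := D.hom l hG
        obtain ⟨w, a, b⟩ := lying j hG.1 hG.2.1 ψ
        exact ⟨w, fun _ => ⟨a, fun _ z => by rw [hψ, b]⟩⟩
      · obtain ⟨w, hw⟩ := (hP.fin L d M s θ σ γ T).2.2.1 l (Nat.prime_of_mem_primeFactors hl)
          (Nat.dvd_of_mem_primeFactors hl)
        exact ⟨w, fun _ => ⟨hw, fun h' => absurd h' h⟩⟩
    · exact ⟨w0, fun h => absurd h hl⟩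
  choose w hw using h4
  refine ⟨j, w, fun i x => ?_, fun x => ((h2 _).1 ⟨x, rfl⟩).1, hg, fun l hl => (hw l hl).1,
    fun l hl => (hw l hl).2⟩
  rw [← h3]
  conv_lhs => rw [← Nat.div_add_mod i (2 ^ n), pow_add, mul_inv_rev, mul_smul, pow_mul]
  congr 1
  exact (MulAction.stabilizer _ (j x)).inv_mem ((MulAction.stabilizer _ (j x)).pow_mem (hg x) _)

variable {n : ℕ} {D : Dat n} {j : D.F →+* L} {w : ℕ → Pr L 2}

theorem Ctx.ker' (C : Ctx d σ γ D j w) {l : ℕ} (hl : l ∈ d.primeFactors) (hn : n ≤ lev l)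
    (i : ℕ) (z : 𝓞 D.F) : D.φ l (D.γ⁻¹ ^ (i % 2 ^ n) • z) = 0 ↔
      RingOfIntegers.mapRingHom j z ∈ (γ ^ i • w l).1.asIdeal := by
  rw [C.ker l hl hn]
  show _ ↔ _ ∈ (γ ^ i • (w l).1).asIdeal
  rw [mem_smul_iff, show (γ ^ i)⁻¹ • RingOfIntegers.mapRingHom j z =
    RingOfIntegers.mapRingHom j (D.γ⁻¹ ^ (i % 2 ^ n) • z) from
      RingOfIntegers.ext (C.act i z)]

theorem sym (hS : SSIGN) (T : Tw L d M s θ σ γ) (hM : am d ≤ M) (C : Ctx d σ γ D j w) {l : ℕ}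
    (hl : l ∈ d.primeFactors) (hn : n ≤ lev l) (k : ZMod (2 ^ n)) (e : ℕ) (a b : 𝓞 D.F)
    (ha : D.φ l (D.γ⁻¹ ^ k.val • a) ≠ 0) (hb : D.φ l (D.γ⁻¹ ^ k.val • b) ≠ 0) {β : Un L}
    {c : Dv L 2} (hβ : (β + σ • β).val * j b = j a * (-(d : L)) ^ e)
    (hc : Sgn d (γ ^ 2 ^ n • β - β) c) :
    ∑ i ∈ range (2 ^ (lev l - n)), (c (γ ^ (i * 2 ^ n + k.val) • w l) : F2) =
      D.sy l (a * b) k := by
  have hG := gd T.md hl hn
  obtain ⟨ψ, hψ, -⟩ := D.hom l hG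
  have := hS L D.F d M n l e s θ σ γ j
    (ψ.comp (MulSemiringAction.toRingHom _ _ (D.γ⁻¹ ^ k.val))) (γ ^ k.val • w l) β a b c T hG.1
    (Nat.dvd_of_mem_primeFactors hl) hn ((lev_le hl).trans hM)
    (fun z => by
      have := C.ker' hl hn k.val z
      rw [Nat.mod_eq_of_lt k.val_lt, hψ, ← val_lt_one_iff] at this
      exact this)
    (by rwa [hψ] at ha) (by rwa [hψ] at hb) hβ hc
  simp only [pow_add, mul_smul]
  rw [this, Dat.sy, hψ]
  rfl

theorem pi_ne (hD : SDAT) {l : ℕ} (hG : Gd n l) : D.π l ≠ 0 := fun h => by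
  have := hD.nrm n D l hG
  rw [prod_eq_zero (mem_univ 0) (by rw [h, smul_zero]), eq_comm] at this
  exact hG.1.ne_zero (by simpa using eq_zero_of_pow_eq_zero this)

theorem nrm' (hD : SDAT) {l : ℕ} (hG : Gd n l) :
    D.π l * ∏ k ∈ univ.erase (0 : ZMod (2 ^ n)), D.γ⁻¹ ^ k.val • D.π l = (l : 𝓞 D.F) ^ D.h := by
  rw [← hD.nrm n D l hG, ← mul_prod_erase _ _ (mem_univ (0 : ZMod (2 ^ n)))]
  simp

theorem dv_off (hD : SDAT) {l : ℕ} (hG : Gd n l) {x : Un L} (hx : x.val = j (D.π l))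
    {v : Pr L 2} (hv : (l : 𝓞 L) ∉ v.1.asIdeal) : dv L 2 x v = 0 := by
  rw [dv_apply, ord_eq_zero_iff, hx]
  refine (val_eq_one_iff v.1 (RingOfIntegers.mapRingHom j (D.π l))).2 fun h => hv ?_
  have := Ideal.mem_of_dvd _ (map_dvd (RingOfIntegers.mapRingHom j) ⟨_, (nrm' hD hG).symm⟩) h
  rw [map_pow, map_natCast] at this
  exact v.1.isPrime.mem_of_pow_mem _ this

theorem dv_on (hP : STP) (hA : SAMB) (hD : SDAT) (T : Tw L d M s θ σ γ) (C : Ctx d σ γ D j w)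
    {l : ℕ} (hl : l ∈ d.primeFactors) (hn : n ≤ lev l) {x : Un L} (hx : x.val = j (D.π l))
    (i : ℕ) : dv L 2 x (γ ^ i • w l) = 2 * if 2 ^ n ∣ i then (D.h : ℤ) else 0 := by
  have hG := gd T.md hl hn
  have h1 : ∀ i : ℕ, ¬2 ^ n ∣ i →
      RingOfIntegers.mapRingHom j (D.π l) ∉ (γ ^ i • w l).1.asIdeal := fun i hi h => by
    rw [← C.ker' hl hn, ← ZMod.val_natCast] at h
    exact hi ((ZMod.natCast_eq_zero_iff _ _).1 (hD.nz n D l l _ hG hG h).2)
  split_ifs with hi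
  · have hx' : (γ ^ i)⁻¹ • x = x := Un.ext (by
      rw [Un.val_smul, hx, C.act, Nat.mod_eq_zero_of_dvd hi, pow_zero, one_smul])
    rw [← inv_inv (γ ^ i), ← smul_ap, ← hA.eqv, hx', dv_apply, ord_apply, hx]
    have h2 := congrArg (fun z : 𝓞 D.F => (w l).1.valuation L (j z)) (nrm' hD hG)
    simp only [map_mul, map_prod, map_pow, map_natCast] at h2
    rw [prod_eq_one, mul_one, val_l hP T hl (C.mem l hl), ← WithZero.exp_nsmul] at h2
    · rw [h2, WithZero.log_exp, nsmul_eq_mul]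
      ring
    · intro k hk
      refine (val_eq_one_iff (w l).1 (RingOfIntegers.mapRingHom j _)).2 fun h => ?_
      exact (mem_erase.1 hk).1 (hD.nz n D l l k hG hG ((C.ker l hl hn _).2 h)).2
  · rw [mul_zero, dv_apply, ord_eq_zero_iff, hx]
    exact (val_eq_one_iff _ (RingOfIntegers.mapRingHom j (D.π l))).2 (h1 i hi)

theorem diag (hQ : SQR) (hD : SDAT) (T : Tw L d M s θ σ γ) (j : D.F →+* L) {l : ℕ}
    (hl : l ∈ d.primeFactors) (hn : n ≤ lev l) : ∃ b : 𝓞 D.F, D.φ l b ≠ 0 ∧ D.φ l 1 ≠ 0 ∧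
      j (D.π l) * j b = (-(d : L)) ^ D.h ∧ qr (D.φ l b) = D.Rc d.primeFactors l l 0 := by
  have hG := gd T.md hl hn
  have hG0 := gd T.md hl (Nat.zero_le _)
  have := Fact.mk hG.1
  obtain ⟨ψ, hψ, -⟩ := D.hom l hG
  have h1 : ∀ c ∈ d.primeFactors.erase l, (c : ZMod l) ≠ 0 := fun c hc h =>
    (mem_erase.1 hc).1 ((Nat.prime_dvd_prime_iff_eq hG.1
      (Nat.prime_of_mem_primeFactors (mem_erase.1 hc).2)).1
      ((ZMod.natCast_eq_zero_iff _ _).1 h)).symm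
  have h2 : ∀ k ∈ univ.erase (0 : ZMod (2 ^ n)), ψ (D.γ⁻¹ ^ k.val • D.π l) ≠ 0 := fun k hk h =>
    (mem_erase.1 hk).1 (hD.nz n D l l k hG hG ((hψ _).trans h)).2
  have h3 : (-1 : ZMod l) * ∏ c ∈ d.primeFactors.erase l, (c : ZMod l) ≠ 0 :=
    mul_ne_zero (by simp) (prod_ne_zero_iff.2 h1)
  have h4 : ψ ((-1 * ∏ c ∈ d.primeFactors.erase l, (c : 𝓞 D.F)) ^ D.h *
      ∏ k ∈ univ.erase (0 : ZMod (2 ^ n)), D.γ⁻¹ ^ k.val • D.π l) =
      ((-1 : ZMod l) * ∏ c ∈ d.primeFactors.erase l, (c : ZMod l)) ^ D.h *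
        ∏ k ∈ univ.erase (0 : ZMod (2 ^ n)), ψ (D.γ⁻¹ ^ k.val • D.π l) := by
    simp only [map_mul, map_pow, map_prod, map_neg, map_one, map_natCast]
  refine ⟨(-1 * ∏ c ∈ d.primeFactors.erase l, (c : 𝓞 D.F)) ^ D.h *
    ∏ k ∈ univ.erase (0 : ZMod (2 ^ n)), D.γ⁻¹ ^ k.val • D.π l, ?_, by simp [hψ], ?_, ?_⟩
  · rw [hψ, h4]
    exact mul_ne_zero (pow_ne_zero _ h3) (prod_ne_zero_iff.2 h2)
  · rw [← map_mul, ← map_mul, mul_left_comm, nrm' hD hG, ← mul_pow, mul_assoc,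
      prod_erase_mul _ _ hl, ← Nat.cast_prod, Nat.prod_primeFactors_of_squarefree T.sqf]
    simp
  · rw [hψ, h4, hQ.mul l _ _ hG0 (pow_ne_zero _ h3) (prod_ne_zero_iff.2 h2),
      qr_pow hQ hG0 D.odd h3, hQ.mul l _ _ hG0 (by simp) (prod_ne_zero_iff.2 h1), hQ.neg l hG0,
      qr_prod hQ hG0 _ _ h1, qr_prod hQ hG0 _ _ h2]
    simp only [Dat.Rc, if_true, Pi.add_apply, Pi.single_eq_same, Dat.ow, Dat.rr, Dat.sy, hψ, lg]
    ring

variable {B : Type} [CommRing B] [IsDomain B] [CharZero B] {t : B}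
  {Z : Dv L 2 →+ B ⧸ Ideal.span {(4 : B)}}

theorem step (hP : STP) (hN : SHN) (hH : SHALF) (T : Tw L d M s θ σ γ) (hm : m ≤ M)
    (ha : am d < m) (hn : n < m) (C : Ctx d σ γ D j w)
    (F : Fn (gA γ) (Iv γ m) (Rm L d) (Oc γ m) t Z) {y : ℕ → B}
    (hy : ∀ l ∈ d.primeFactors, m4 (2 * y l) = Z (Finsupp.single (w l) 1)) {x : Un L} {a : D.F}
    (hx : x.val = j a) {E : Dv L 2} (hE : E ∈ Rm L d) (he : dv L 2 x = 2 • E) :
    ∃ (β : Un L) (c : Dv L 2) (z : B), (β + σ • β).val = j a ∧ Sgn d (γ ^ 2 ^ n • β - β) c ∧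
      om n t * ∑ l ∈ d.primeFactors, co γ w t E l * y l = 2 * z ∧
      z - ∑ l ∈ d.primeFactors, co γ w t c l * y l ∈ Ideal.span {2, t ^ 2 ^ n} := by
  obtain ⟨m, rfl⟩ : ∃ k, m = k + 1 := ⟨m - 1, by omega⟩
  have hM : am d ≤ M := by omega
  have h1 : γ ^ 2 ^ n • x = x := Un.ext (by rw [Un.val_smul, hx, C.fg])
  obtain ⟨β, h2, h3⟩ := hN L d M m s θ σ γ T (by omega) hm x
    (Un.ext (by rw [Un.val_smul, hx, C.fs])) (fix_pow (by omega) h1) (he ▸ nsmul_mem hE 2)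
  obtain ⟨E', h4, c, h5, h6, h7, h8⟩ :=
    hH.half L d M (m + 1) n s θ σ γ T hn.le hm x β E h1 h2 h3 he hE
  obtain ⟨e, h9, h10⟩ := F.half E' h4 E hE h6 (2 ^ n) c h5 (by rwa [gA_it])
  rw [ZS hP T hM C.mem F hy hE] at h9
  rw [ZS hP T hM C.mem F hy h5] at h10
  obtain ⟨r, hr⟩ := m4_two h9
  obtain ⟨u, hu⟩ := Ideal.mem_span_singleton.1 (Ideal.Quotient.eq.1 h10)
  refine ⟨β, c, ∑ l ∈ d.primeFactors, co γ w t c l * y l + (u * 2 - r * om n t), by rw [h3, hx],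
    h8, ?_, ?_⟩
  · unfold om
    linear_combination hu - ((1 + t) ^ 2 ^ n - 1) * hr
  · rw [add_sub_cancel_left]
    exact sub_mem (Ideal.mul_mem_left _ _ (two_mem _)) (Ideal.mul_mem_left _ _ (om_mem n t))

omit [IsDomain B] [CharZero B] in
theorem repl (c : Dv L 2) (y : ℕ → B) (f : ℕ → Co n)
    (hf : ∀ l ∈ d.primeFactors, n ≤ lev l → ∀ k : ZMod (2 ^ n),
      ∑ i ∈ range (2 ^ (lev l - n)), (c (γ ^ (i * 2 ^ n + k.val) • w l) : F2) = f l k) :
    ∃ C : ℕ → B, (∀ l ∈ d.primeFactors, n ≤ lev l → C l = cv (1 + t) (f l)) ∧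
      ∑ l ∈ d.primeFactors, co γ w t c l * y l - ∑ l ∈ d.primeFactors, C l * y l ∈
        Ideal.span {2, t ^ 2 ^ n} := by
  refine ⟨fun l => if n ≤ lev l then cv (1 + t) (f l) else co γ w t c l,
    fun l _ h => if_pos h, ?_⟩
  rw [← sum_sub_distrib]
  refine sum_mem fun l hl => ?_
  rw [← sub_mul]
  refine Ideal.mul_mem_right _ _ ?_
  beta_reduce
  split_ifs with h
  · exact co_cv t h (fun i => c (γ ^ i • w l)) (f l) (hf l hl h)
  · simp

end SOL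

open SOL in
theorem rowSOL : OfSOL := by
  intro hQ _ hT hP hA hC hN hH hS hE hD L _ _ d M m s θ σ γ T hm ha ht hst hne
  classical
  have hM : am d ≤ M := by omega
  have hRI : Rm L d ≤ Iv γ m := (hP.fin L d M s θ σ γ T).2.2.2 m ha.le
  obtain ⟨s1, s2, s3, -, s5, s6, s7⟩ := hA.sub L σ γ m
  obtain ⟨B, i1, i2, i3, i4, i5, t, hg, Z, F⟩ := fn hE (gA γ)
    (Finsupp.filterAddHom fun w : Pr L 2 => (d : 𝓞 L) ∈ w.1.asIdeal) M (Iv γ m) (Rm L d) (Oc γ m)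
    (Oc γ (m + 1))
    (fun a => by rw [gA_it, ← (hT.gal L d M s θ σ γ T).2.2.2.2.1, pow_orderOf_eq_one, one_smul])
    s6 (s7 d) s5 (hA.sub L σ γ (m + 1)).2.2.2.2.1
    (fun a w hw => Finsupp.filter_apply_neg _ _ hw)
    (fun a h => (Finsupp.filter_eq_self_iff _ _).2 fun w hw => by_contra fun h' => hw (h w h'))
    hRI s3
    (fun c hc => s1 ((hA.amb L d M m s θ σ γ T (by omega) _ (nsmul_mem (hRI hc) 2)
      (sig_fix hP T (nsmul_mem hc 2))).1 fun w _ => ⟨c w, by simp [two_mul]⟩))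
    (hC.cap L d M m s θ σ γ T hm ht) hst hne (hH.div L d M m s θ σ γ T ha (by omega))
    (by
      have := (hA.dm L d M m s θ σ γ T (by omega)).1
      rwa [inf_eq_left.2 hRI] at this)
  refine ⟨B, i1, i2, i3, i4, i5, t, hg, fun n hn D => ?_⟩
  obtain ⟨w0⟩ : Nonempty (Pr L 2) := by
    by_contra h
    exact hne fun c _ => by
      rw [show c = 0 from Finsupp.ext fun w => absurd ⟨w⟩ h]
      exact zero_mem _
  obtain ⟨j, w, C⟩ := ctx hT hP T (by omega) D w0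
  have hd : ∀ l ∈ d.primeFactors, (d : 𝓞 L) ∈ (w l).1.asIdeal := fun l hl =>
    (mem_d T.sqf _).2 ⟨l, hl, C.mem l hl⟩
  have hy : ∀ l, ∃ y : B, l ∈ d.primeFactors → m4 (2 * y) = Z (Finsupp.single (w l) 1) := by
    intro l
    by_cases hl : l ∈ d.primeFactors
    · obtain ⟨E, h1, h2⟩ := hH.div L d M m s θ σ γ T ha (by omega) _ (si_mem (hd l hl))
      obtain ⟨e, h3, -⟩ := F.half E h1 _ (si_mem (hd l hl)) h2 0 0 (zero_mem _) (by simp)
      exact ⟨e, fun _ => h3⟩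
    · exact ⟨0, fun h => absurd h hl⟩
  choose y hy using hy
  have h0 : ∀ l ∈ d.primeFactors, 2 ∣ om (lev l) t * y l := fun l hl => by
    have := Z_si F (hd l hl) (2 ^ lev l)
    rw [((stab hP T hM hl (C.mem l hl)).1 _).2 dvd_rfl, ← hy l hl, ← map_mul,
      mul_left_comm] at this
    rw [om, sub_mul, one_mul]
    exact m4_two this.symm
  have h1 : ∀ l ∈ d.primeFactors, n ≤ lev l → ∀ k : ZMod (2 ^ n),
      D.φ l (D.γ⁻¹ ^ k.val • 1) ≠ 0 := fun l hl h k => by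
    rw [smul_one]
    exact (diag hQ hD T j hl h).choose_spec.2.1
  refine ⟨y, ?_, h0, fun l hl hln => ?_, ?_, ?_⟩
  · obtain ⟨c, hc, u, hu, e⟩ := F.unit
    by_contra hcon
    push Not at hcon
    rw [ZS hP T hM C.mem F hy hc] at e
    obtain ⟨r, hr⟩ := m4_two e
    refine (IsLocalRing.mem_maximalIdeal u).1 ?_ hu
    rw [sub_eq_iff_eq_add.1 hr]
    exact add_mem (Ideal.mul_mem_right _ _ hg.1)
      (sum_mem fun l hl => Ideal.mul_mem_left _ _ (hcon l hl))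
  · have hG := gd T.md hl hln
    let x : Un L := um j (mkI (D.π l) (pi_ne hD hG))
    have hx : x.val = j (D.π l) := rfl
    let E : Dv L 2 := (dv L 2 x).mapRange (· / 2) (by simp)
    have hE0 : ∀ v : Pr L 2, (l : 𝓞 L) ∉ v.1.asIdeal → E v = 0 := fun v hv => by
      rw [Finsupp.mapRange_apply, dv_off hD hG hx hv, Int.zero_ediv]
    have hE1 : ∀ i : ℕ, E (γ ^ i • w l) = if 2 ^ n ∣ i then (D.h : ℤ) else 0 := fun i => by
      rw [Finsupp.mapRange_apply, dv_on hP hA hD T C hl hln hx,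
        Int.mul_ediv_cancel_left _ two_ne_zero]
    have hE : E ∈ Rm L d := fun v hv => hE0 v fun h => hv ((mem_d T.sqf _).2 ⟨l, hl, h⟩)
    have he : dv L 2 x = 2 • E := by
      ext v
      rw [Finsupp.smul_apply, nsmul_eq_mul]
      by_cases hv : (l : 𝓞 L) ∈ v.1.asIdeal
      · obtain ⟨i, rfl⟩ := (stab hP T hM hl (C.mem l hl)).2 v hv
        rw [hE1, dv_on hP hA hD T C hl hln hx, Nat.cast_ofNat]
      · rw [hE0 v hv, dv_off hD hG hx hv, mul_zero]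
    obtain ⟨β, c, z, a1, a2, a3, a4⟩ := step hP hN hH T (by omega) ha hn C F hy hx hE he
    obtain ⟨C', b1, b2⟩ := repl (t := t) c y (D.Rc d.primeFactors l) fun l' hl' h' k => by
      by_cases hk : l = l' ∧ k = 0
      · obtain ⟨rfl, rfl⟩ := hk
        obtain ⟨b, c1, -, c3, c4⟩ := diag hQ hD T j hl hln
        rw [sym hS T hM C hl hln 0 D.h 1 b (h1 l hl hln 0) (by simpa using c1)
          (by rw [a1, c3]; simp) a2, ← c4]
        simp [Dat.sy]
      · rw [sym hS T hM C hl' h' k 0 (D.π l) 1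
          (fun h => hk (hD.nz n D l l' k hG (gd T.md hl' h') h)) (h1 l' hl' h' k)
          (by rw [a1]; simp) a2, mul_one, Dat.Rc]
        split_ifs with e
        · subst e
          have hk' : k ≠ 0 := fun h => hk ⟨rfl, h⟩
          rw [Pi.add_apply, Pi.single_eq_of_ne hk', add_zero, Dat.ow, if_neg hk']
          rfl
        · rfl
    obtain ⟨z0, hz0⟩ := h0 l hl
    obtain ⟨q, hq⟩ := D.odd
    refine ⟨C', b1, z0, hz0, ?_⟩
    rw [sum_eq_single_of_mem l hl, ← mul_assoc, co, co_pi t hln D.h _ hE1, mul_assoc, hz0,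
      mul_left_comm, mul_right_inj' two_ne_zero, hq] at a3
    · have := sub_mem (add_mem a4 b2) (Ideal.mul_mem_left _ (q * z0) (two_mem _))
      rw [← a3] at this
      convert this using 1
      push_cast
      ring
    · intro l' hl' hne'
      rw [co, sum_eq_zero, zero_mul]
      intro i _
      rw [hE0, Int.cast_zero, zero_mul]
      rw [nat_smul]
      exact fun h => hne' (same hl' hl (C.mem l' hl') h)
  · let x : Un L := um j (mkI D.η D.unit.ne_zero)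
    have hx : x.val = j D.η := rfl
    have he : dv L 2 x = 2 • 0 := by
      ext v
      rw [smul_zero, Finsupp.zero_apply, dv_apply, ord_eq_zero_iff, hx]
      exact (val_eq_one_iff v.1 (RingOfIntegers.mapRingHom j D.η)).2 fun h => v.1.isPrime.ne_top
        (Ideal.eq_top_of_isUnit_mem _ h (D.unit.map _))
    obtain ⟨β, c, z, a1, a2, a3, a4⟩ := step hP hN hH T (by omega) ha hn C F hy hx (zero_mem _) he
    obtain ⟨C', b1, b2⟩ := repl (t := t) c y D.cc fun l' hl' h' k => by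
      rw [sym hS T hM C hl' h' k 0 D.η 1 ?_ (h1 l' hl' h' k) (by rw [a1]; simp) a2, mul_one]
      · rfl
      · intro h
        exact (w l').1.isPrime.ne_top (Ideal.eq_top_of_isUnit_mem _ ((C.ker l' hl' h' _).1 h)
          ((D.unit.map (MulSemiringAction.toRingHom _ _ (D.γ⁻¹ ^ k.val))).map _))
    refine ⟨C', b1, ?_⟩
    have hz : z = 0 := by simpa [co] using a3
    convert neg_mem (add_mem a4 b2) using 1
    rw [hz]
    ring
  · let x : Un L := Un.mk s (s_ne T)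
    have hc : dv L 2 x ∈ Rm L d := fun v hv => (hP.unr L d M s θ σ γ T v).1 hv x rfl
    have ho : dv L 2 x ∈ Oc γ m := ⟨1, odd_one, x, fix_pow (Nat.zero_le m)
      (by rw [pow_zero, pow_one]; exact Un.ext T.gs), one_smul _ _⟩
    have := F.kill _ hc ho
    rw [ZS hP T hM C.mem F hy hc, ← map_zero m4, ← mul_zero (2 : B)] at this
    convert m4_two this using 1
    rw [sub_zero]
    refine sum_congr rfl fun l hl => ?_
    rw [nu, co]
    congr 1
    refine sum_congr rfl fun i _ => ?_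
    rw [dv_apply, (hP.ram L d M s θ σ γ T _ (by rw [nat_smul]; exact hd l hl)).2.1 x rfl,
      Int.cast_one, one_mul]

end Pool.Agent.MP_1246c0_nt.H12
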