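import Pool.Agent.MP_1246c0_nt.H12.SpecA

/-! The eigenfunctional on divisors, and identities in rings of characteristic two. -/

namespace Pool.Agent.MP_1246c0_nt.H12

open Finset

namespace SOL

/-- reduction modulo four -/
abbrev m4 {B : Type} [CommRing B] : B →+* B ⧸ Ideal.span {(4 : B)} := Ideal.Quotient.mk _

/-- the properties of the functional -/
structure Fn {A B : Type} [AddCommGroup A] [CommRing B] (g : A →+ A) (I R O : AddSubgroup A)
    (t : B) (Z : A →+ B ⧸ Ideal.span {(4 : B)}) : Prop where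
  eqv : ∀ c ∈ R, Z (g c) = m4 (1 + t) * Z c
  kill : ∀ c ∈ R, c ∈ O → Z c = 0
  half : ∀ E ∈ I, ∀ C ∈ R, 2 • E - C ∈ O → ∀ N : ℕ, ∀ c ∈ R, g^[N] E - E - c ∈ O →
    ∃ e : B, m4 (2 * e) = Z C ∧ m4 (((1 + t) ^ N - 1) * e) = Z c
  unit : ∃ C ∈ R, ∃ y : B, IsUnit y ∧ m4 (2 * y) = Z C

theorem fn (hE : SEIG) {A : Type} [AddCommGroup A] (g p : A →+ A) (K : ℕ)
    (I R O O' : AddSubgroup A) (hK : ∀ a, g^[2 ^ K] a = a) (gI : ∀ a ∈ I, g a ∈ I)
    (gR : ∀ a ∈ R, g a ∈ R) (gO : ∀ a ∈ O, g a ∈ O) (gO' : ∀ a ∈ O', g a ∈ O')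
    (pR : ∀ a, p a ∈ R) (pp : ∀ a ∈ R, p a = a) (RI : R ≤ I) (OO : O ≤ O')
    (R2 : ∀ c ∈ R, 2 • c ∈ O) (cap : ∀ D ∈ I, 2 • D ∈ O → D ∈ R ⊔ O') (st : R ⊓ O' ≤ O)
    (ne : ¬R ≤ O') (div : ∀ c ∈ R, ∃ E ∈ I, 2 • E - c ∈ O) (fin : O.relIndex R ≠ 0) :
    ∃ (B : Type) (_ : CommRing B) (_ : IsDomain B) (_ : IsDiscreteValuationRing B)
      (_ : CharZero B) (_ : Finite (IsLocalRing.ResidueField B)) (t : B), Eg t ∧
      ∃ Z : A →+ B ⧸ Ideal.span {(4 : B)}, Fn g I R O t Z := by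
  let U : AddSubgroup A := I ⊓ (R ⊔ O).comap (nsmulAddMonoidHom 2)
  have mU : ∀ a, a ∈ U ↔ a ∈ I ∧ ∃ c ∈ R, 2 • a - c ∈ O := fun a => by
    refine and_congr_right fun _ => ?_
    show 2 • a ∈ R ⊔ O ↔ _
    rw [AddSubgroup.mem_sup]
    constructor
    · rintro ⟨c, hc, o, ho, e⟩
      exact ⟨c, hc, by rwa [← e, add_sub_cancel_left]⟩
    · rintro ⟨c, hc, ho⟩
      exact ⟨c, hc, _, ho, by abel⟩
  have RU : R ≤ U := fun c hc => (mU c).2 ⟨RI hc, 0, zero_mem _, by simpa using R2 c hc⟩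
  have gU : ∀ a ∈ U, g a ∈ U := fun a ha => by
    obtain ⟨h1, c, hc, h2⟩ := (mU a).1 ha
    exact (mU _).2 ⟨gI a h1, g c, gR c hc, by simpa using gO _ h2⟩
  let g1 : U →+ U := (g.comp U.subtype).codRestrict U fun a => gU a a.2
  let N : AddSubgroup U := O'.addSubgroupOf U
  let q : U →+ U ⧸ N := QuotientAddGroup.mk' N
  have q0 : ∀ a : U, q a = 0 ↔ (a : A) ∈ O' := fun a => QuotientAddGroup.eq_zero_iff a
  have qs : ∀ v, ∃ a, q a = v := QuotientAddGroup.mk'_surjective N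
  let g2 : U ⧸ N →+ U ⧸ N := QuotientAddGroup.map N N g1 fun a ha => gO' _ ha
  have hg : ∀ a, g2 (q a) = q (g1 a) := fun _ => rfl
  have hi : ∀ (n : ℕ) (a : U), ((g1^[n] a : U) : A) = g^[n] a := fun n a => by
    induction n with
    | zero => rfl
    | succ n ih => rw [Function.iterate_succ_apply', Function.iterate_succ_apply', ← ih]; rfl
  have hi2 : ∀ (n : ℕ) (a : U), g2^[n] (q a) = q (g1^[n] a) := fun n a => by
    induction n with
    | zero => rfl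
    | succ n ih => rw [Function.iterate_succ_apply', Function.iterate_succ_apply', ih, hg]
  let r : R →+ U ⧸ N := q.comp (AddSubgroup.inclusion RU)
  have h4 : ∀ v : U ⧸ N, 4 • v = 0 := fun v => by
    obtain ⟨a, rfl⟩ := qs v
    obtain ⟨-, c, hc, h2⟩ := (mU a).1 a.2
    rw [← map_nsmul, q0]
    have e : ((4 • a : U) : A) = 2 • (2 • (a : A) - c) + 2 • c := by
      rw [AddSubgroup.coe_nsmul]; abel
    rw [e]
    exact OO (add_mem (nsmul_mem h2 2) (R2 c hc))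
  have h2 : ∀ v : U ⧸ N, 2 • v = 0 → ∃ c, r c = v := fun v hv => by
    obtain ⟨a, rfl⟩ := qs v
    obtain ⟨h1, c, hc, h2⟩ := (mU a).1 a.2
    rw [← map_nsmul, q0, AddSubgroup.coe_nsmul] at hv
    have h3 : c ∈ O := st ⟨hc, by simpa using sub_mem hv (OO h2)⟩
    obtain ⟨c', hc', o, ho, e⟩ := AddSubgroup.mem_sup.1 (cap a h1 (by simpa using add_mem h2 h3))
    refine ⟨⟨c', hc'⟩, ?_⟩
    rw [eq_comm, ← sub_eq_zero]
    show q a - q _ = 0
    rw [← map_sub, q0, AddSubgroup.coe_sub, ← e]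
    simpa using ho
  have hr : Finite r.range := by
    refine Nat.finite_of_card_ne_zero ?_
    rw [← AddSubgroup.index_ker]
    have hle : O.addSubgroupOf R ≤ r.ker := fun c hc => (q0 _).2 (OO hc)
    exact fun h => fin (Nat.eq_zero_of_zero_dvd (h ▸ AddSubgroup.index_dvd_of_le hle))
  have hk : Finite (nsmulAddMonoidHom 2 : U ⧸ N →+ U ⧸ N).ker :=
    Finite.of_injective _ (AddSubgroup.inclusion_injective (K := r.range) fun v hv => h2 v hv)
  have : Finite (U ⧸ N) := by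
    refine (nsmulAddMonoidHom 2 : U ⧸ N →+ U ⧸ N).finite_iff_finite_ker_range.2 ⟨hk, ?_⟩
    refine Finite.of_injective _ (AddSubgroup.inclusion_injective
      (K := (nsmulAddMonoidHom 2 : U ⧸ N →+ U ⧸ N).ker) ?_)
    rintro _ ⟨v, rfl⟩
    show 2 • 2 • v = 0
    rw [smul_smul]
    exact h4 v
  obtain ⟨B, i1, i2, i3, i4, i5, t, χ, ht, hχ, v, y, hy, hv⟩ := hE (U ⧸ N) g2 K
    (fun v => by
      obtain ⟨a, rfl⟩ := qs v
      rw [hi2]
      exact congrArg q (Subtype.ext ((hi _ a).trans (hK a)))) h4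
    (fun v hv => by
      obtain ⟨c, rfl⟩ := h2 v hv
      obtain ⟨E, hE, h⟩ := div c c.2
      refine ⟨q ⟨E, (mU E).2 ⟨hE, c, c.2, h⟩⟩, ?_⟩
      rw [eq_comm, ← sub_eq_zero, ← map_nsmul]
      show q _ - q _ = 0
      rw [← map_sub, q0]
      exact OO h)
    (by
      obtain ⟨c, hc, hc'⟩ := SetLike.not_le_iff_exists.1 ne
      exact ⟨r ⟨c, hc⟩, fun h => hc' ((q0 _).1 h)⟩)
  let X : U →+ B ⧸ Ideal.span {(4 : B)} := χ.comp q
  have X0 : ∀ a : U, (a : A) ∈ O → X a = 0 := fun a ha => by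
    show χ (q a) = 0
    rw [(q0 a).2 (OO ha), map_zero]
  have Xg : ∀ a, X (g1 a) = m4 (1 + t) * X a := fun a => hχ (q a)
  have Xi : ∀ (n : ℕ) a, X (g1^[n] a) = m4 ((1 + t) ^ n) * X a := fun n a => by
    induction n with
    | zero => simp
    | succ n ih => rw [Function.iterate_succ_apply', Xg, ih, pow_succ', map_mul, mul_assoc]
  let Z : A →+ B ⧸ Ideal.span {(4 : B)} := X.comp (p.codRestrict U fun a => RU (pR a))
  have hZ : ∀ c (hc : c ∈ R), Z c = X ⟨c, RU hc⟩ := fun c hc =>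
    congrArg X (Subtype.ext (pp c hc))
  have two : ∀ (E : U) (C : A), C ∈ R → 2 • (E : A) - C ∈ O → 2 * X E = Z C := fun E C hC h => by
    have := X0 (2 • E - ⟨C, RU hC⟩) h
    rw [map_sub, map_nsmul, sub_eq_zero, ← hZ C hC, nsmul_eq_mul] at this
    simpa using this
  refine ⟨B, i1, i2, i3, i4, i5, t, ht, Z, fun c hc => ?_, fun c hc ho => ?_,
    fun E hE C hC h n c hc h' => ?_, ?_⟩
  · rw [hZ c hc, hZ _ (gR c hc), ← Xg]
    rfl
  · rw [hZ c hc]
    exact X0 _ ho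
  · let E' : U := ⟨E, (mU E).2 ⟨hE, C, hC, h⟩⟩
    obtain ⟨e, he⟩ := Ideal.Quotient.mk_surjective (X E')
    refine ⟨e, ?_, ?_⟩
    · rw [map_mul, he, ← two E' C hC h, map_ofNat]
    · have := X0 (g1^[n] E' - E' - ⟨c, RU hc⟩) (by
        rw [AddSubgroup.coe_sub, AddSubgroup.coe_sub, hi]; exact h')
      rw [map_sub, map_sub, Xi, ← hZ c hc, sub_eq_zero] at this
      rw [← this, map_mul, he, map_sub, map_one, sub_mul, one_mul]
  · obtain ⟨a, rfl⟩ := qs v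
    obtain ⟨-, c, hc, h2⟩ := (mU a).1 a.2
    refine ⟨c, hc, y, hy, ?_⟩
    rw [← two a c hc h2, map_mul, map_ofNat, ← hv]
    rfl

variable {B : Type} [CommRing B]

theorem m4_two [IsDomain B] [CharZero B] {a b : B} (h : m4 (2 * a) = m4 (2 * b)) :
    2 ∣ a - b := by
  obtain ⟨u, hu⟩ := Ideal.mem_span_singleton.1 (Ideal.Quotient.eq.1 h)
  exact ⟨u, mul_left_cancel₀ (two_ne_zero (α := B)) (by linear_combination hu)⟩

theorem om_two (n : ℕ) (t : B) : 2 ∣ om n t - t ^ 2 ^ n := by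
  unfold om
  induction n with
  | zero => simp
  | succ n ih =>
    obtain ⟨a, ha⟩ := ih
    have e : (1 + t) ^ 2 ^ n = 1 + t ^ 2 ^ n + 2 * a := by linear_combination ha
    rw [pow_succ, pow_mul, pow_mul, e]
    exact ⟨t ^ 2 ^ n + 2 * a + 2 * a * t ^ 2 ^ n + 2 * a ^ 2, by ring⟩

theorem om_mem (n : ℕ) (t : B) : om n t ∈ Ideal.span {2, t ^ 2 ^ n} := by
  obtain ⟨a, ha⟩ := om_two n t
  exact Ideal.mem_span_pair.2 ⟨a, 1, by linear_combination -ha⟩

theorem two_mem (x : B) : (2 : B) ∈ Ideal.span {2, x} := Ideal.subset_span (by simp)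

theorem regroup (u : B) (N : ℕ) (hu : u ^ N = 1) (c : ℕ → B) (J : ℕ) :
    ∑ i ∈ range (J * N), c i * u ^ i =
      ∑ k ∈ range N, (∑ i ∈ range J, c (i * N + k)) * u ^ k := by
  induction J with
  | zero => simp
  | succ J ih =>
    rw [add_mul, one_mul, sum_range_add, ih, ← sum_add_distrib]
    refine sum_congr rfl fun k _ => ?_
    rw [sum_range_succ, pow_add, mul_comm J N, pow_mul, hu, one_pow, one_mul, add_mul]

theorem cast_two (h2 : (2 : B) = 0) (a : ℤ) : (((a : F2).val : ℕ) : B) = a := by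
  have h : (((a : F2).val : ℤ) : B) = ((a % 2 : ℤ) : B) := by rw [ZMod.val_intCast]; rfl
  rw [Int.cast_natCast] at h
  rw [h, Int.emod_def]
  push_cast
  rw [h2, zero_mul, sub_zero]

theorem sum_zmod {M : Type} [AddCommMonoid M] (N : ℕ) [NeZero N] (f : ℕ → M) :
    ∑ k : ZMod N, f k.val = ∑ k ∈ range N, f k :=
  sum_nbij' (fun k => k.val) (fun k => (k : ZMod N)) (fun k _ => by simpa using k.val_lt)
    (fun _ _ => by simp) (fun k _ => by simp)
    (fun k hk => ZMod.val_cast_of_lt (by simpa using hk)) fun _ _ => rfl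

theorem co_cv (t : B) {n a : ℕ} (hn : n ≤ a) (c : ℕ → ℤ) (f : Co n)
    (h : ∀ k : ZMod (2 ^ n), ∑ i ∈ range (2 ^ (a - n)), (c (i * 2 ^ n + k.val) : F2) = f k) :
    ∑ i ∈ range (2 ^ a), (c i : B) * (1 + t) ^ i - cv (1 + t) f ∈ Ideal.span {2, t ^ 2 ^ n} := by
  rw [← Ideal.Quotient.eq]
  set φ := Ideal.Quotient.mk (Ideal.span {2, t ^ 2 ^ n})
  have h2 : (2 : B ⧸ Ideal.span {2, t ^ 2 ^ n}) = 0 := by
    rw [← map_ofNat φ]
    exact Ideal.Quotient.eq_zero_iff_mem.2 (two_mem _)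
  have hu : φ (1 + t) ^ 2 ^ n = 1 := by
    rw [← map_pow, ← map_one φ]
    exact Ideal.Quotient.eq.2 (om_mem n t)
  have ha : 2 ^ a = 2 ^ (a - n) * 2 ^ n := by rw [← pow_add, Nat.sub_add_cancel hn]
  simp only [cv, map_sum, map_mul, map_pow, map_intCast, map_natCast]
  rw [ha, regroup _ _ hu (fun i => (c i : B ⧸ Ideal.span {2, t ^ 2 ^ n})), ← sum_zmod]
  refine sum_congr rfl fun k _ => ?_
  rw [← h k, ← Int.cast_sum, ← Int.cast_sum, cast_two h2]

theorem co_pi (t : B) {n a : ℕ} (hn : n ≤ a) (h : ℕ) (c : ℕ → ℤ)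
    (hc : ∀ i, c i = if 2 ^ n ∣ i then (h : ℤ) else 0) :
    om n t * ∑ i ∈ range (2 ^ a), (c i : B) * (1 + t) ^ i = h * om a t := by
  have ha : 2 ^ a = 2 ^ (a - n) * 2 ^ n := by rw [← pow_add, Nat.sub_add_cancel hn]
  unfold om
  rw [ha]
  generalize 2 ^ (a - n) = J
  have hN : 0 < 2 ^ n := by positivity
  generalize 2 ^ n = N at *
  induction J with
  | zero => simp
  | succ J ih =>
    rw [add_mul, one_mul, sum_range_add, mul_add, ih, sum_eq_single 0]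
    · rw [hc, if_pos (by simp), pow_add]
      push_cast
      ring
    · intro k hk h0
      rw [hc, if_neg, Int.cast_zero, zero_mul]
      rw [Nat.dvd_add_right (dvd_mul_left N J)]
      exact Nat.not_dvd_of_pos_of_lt (Nat.pos_of_ne_zero h0) (mem_range.1 hk)
    · intro h0
      exact absurd (mem_range.2 hN) h0

end SOL

end Pool.Agent.MP_1246c0_nt.H12
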