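import Pool.Agent.MP_1246c0_nt.H34.SOLa

/-! Divisors supported on the ramified primes. -/

namespace Pool.Agent.MP_1246c0_nt.H12

open NumberField IsDedekindDomain Finset Pool.Agent.MP_db5b97_nt.H85

namespace SOL

theorem orb {G X : Type} [Group G] [MulAction G X] {g : G} {x : X} {N : ℕ}
    (h : ∀ j : ℕ, g ^ j • x = x ↔ N ∣ j) (i j : ℕ) : g ^ i • x = g ^ j • x ↔ i ≡ j [MOD N] := by
  wlog hij : i ≤ j generalizing i j
  · rw [eq_comm, this j i (le_of_not_ge hij)]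
    exact ⟨Nat.ModEq.symm, Nat.ModEq.symm⟩
  obtain ⟨k, rfl⟩ := Nat.exists_eq_add_of_le hij
  rw [pow_add, mul_smul, smul_left_cancel_iff, eq_comm, h, Nat.modEq_iff_dvd' hij,
    Nat.add_sub_cancel_left]

theorem fix_pow {G X : Type} [Group G] [MulAction G X] {g : G} {x : X} {n m : ℕ} (h : n ≤ m)
    (hx : g ^ 2 ^ n • x = x) : g ^ 2 ^ m • x = x := by
  obtain ⟨k, rfl⟩ := Nat.exists_eq_add_of_le h
  rw [pow_add, pow_mul]
  exact (MulAction.stabilizer G x).pow_mem hx _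

variable {L : Type} [Field L] [NumberField L] {d M : ℕ} {s θ : L} {σ γ : L ≃ₐ[ℚ] L}

theorem nat_smul (g : L ≃ₐ[ℚ] L) (w : Pr L 2) (a : ℕ) :
    (a : 𝓞 L) ∈ (g • w).1.asIdeal ↔ (a : 𝓞 L) ∈ w.1.asIdeal := by
  show _ ∈ (g • w.1).asIdeal ↔ _
  rw [mem_smul_iff, smul_natCast]

theorem not_cop {w : Sp L} {a b : ℕ} (h : b.Coprime a) (ha : (a : 𝓞 L) ∈ w.asIdeal) :
    (b : 𝓞 L) ∉ w.asIdeal :=
  (val_eq_one_iff w b).1 (by simpa using val_coprime ha h)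

omit [NumberField L] in
theorem mem_d (hd : Squarefree d) (w : Sp L) :
    (d : 𝓞 L) ∈ w.asIdeal ↔ ∃ l ∈ d.primeFactors, (l : 𝓞 L) ∈ w.asIdeal := by
  have := w.isPrime
  conv_lhs => rw [← Nat.prod_primeFactors_of_squarefree hd, Nat.cast_prod]
  exact Ideal.IsPrime.prod_mem_iff

theorem same {w : Sp L} {l l' : ℕ} (hl : l ∈ d.primeFactors) (hl' : l' ∈ d.primeFactors)
    (h : (l : 𝓞 L) ∈ w.asIdeal) (h' : (l' : 𝓞 L) ∈ w.asIdeal) : l = l' := by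
  by_contra hne
  exact not_cop ((Nat.coprime_primes (Nat.prime_of_mem_primeFactors hl)
    (Nat.prime_of_mem_primeFactors hl')).2 hne) h' h

theorem gd (hd : d % 8 = 5) {l n : ℕ} (hl : l ∈ d.primeFactors) (hn : n ≤ lev l) : Gd n l := by
  refine ⟨Nat.prime_of_mem_primeFactors hl, ?_, hn⟩
  rintro rfl
  have := Nat.dvd_of_mem_primeFactors hl
  omega

theorem lev_le {l : ℕ} (hl : l ∈ d.primeFactors) : lev l ≤ am d := le_sup (f := lev) hl

theorem smul_ap (g : L ≃ₐ[ℚ] L) (c : Dv L 2) (w : Pr L 2) : (g • c) w = c (g⁻¹ • w) :=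
  Finsupp.comapSMul_apply g c w

theorem smul_si (g : L ≃ₐ[ℚ] L) (w : Pr L 2) :
    g • (Finsupp.single w 1 : Dv L 2) = Finsupp.single (g • w) 1 :=
  Finsupp.comapSMul_single g w 1

omit [NumberField L] in
theorem si_mem {w : Pr L 2} (hw : (d : 𝓞 L) ∈ w.1.asIdeal) :
    (Finsupp.single w 1 : Dv L 2) ∈ Rm L d := fun _ hv =>
  Finsupp.single_eq_of_ne fun h => hv (h ▸ hw)

theorem sig_fix (hP : STP) (T : Tw L d M s θ σ γ) {c : Dv L 2} (hc : c ∈ Rm L d) : σ • c = c := by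
  ext w
  rw [smul_ap]
  by_cases hw : (d : 𝓞 L) ∈ w.1.asIdeal
  · rw [inv_smul_eq_iff.2 (hP.ram L d M s θ σ γ T w hw).1.symm]
  · rw [hc w hw, hc _ (by rwa [nat_smul])]

theorem stab (hP : STP) (T : Tw L d M s θ σ γ) (hM : am d ≤ M) {l : ℕ} {w : Pr L 2}
    (hl : l ∈ d.primeFactors) (hw : (l : 𝓞 L) ∈ w.1.asIdeal) :
    (∀ j : ℕ, γ ^ j • w = w ↔ 2 ^ lev l ∣ j) ∧
      ∀ w' : Pr L 2, (l : 𝓞 L) ∈ w'.1.asIdeal → ∃ j : ℕ, w' = γ ^ j • w := by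
  obtain ⟨h1, h2, -⟩ := hP.dec L d M s θ σ γ T l w (Nat.prime_of_mem_primeFactors hl)
    (Nat.dvd_of_mem_primeFactors hl) hw
  rw [min_eq_left ((lev_le hl).trans hM)] at h1
  exact ⟨h1, h2⟩

theorem decomp (hP : STP) (T : Tw L d M s θ σ γ) (hM : am d ≤ M) {w : ℕ → Pr L 2}
    (hw : ∀ l ∈ d.primeFactors, (l : 𝓞 L) ∈ (w l).1.asIdeal) {c : Dv L 2} (hc : c ∈ Rm L d) :
    c = ∑ l ∈ d.primeFactors, ∑ i ∈ range (2 ^ lev l),
      c (γ ^ i • w l) • Finsupp.single (γ ^ i • w l) (1 : ℤ) := by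
  classical
  ext v
  simp only [Finsupp.finsetSum_apply, Finsupp.smul_apply, Finsupp.single_apply, smul_eq_mul,
    mul_ite, mul_one, mul_zero]
  by_cases hv : (d : 𝓞 L) ∈ v.1.asIdeal
  · obtain ⟨l, hl, hlv⟩ := (mem_d T.sqf v.1).1 hv
    obtain ⟨h1, h2⟩ := stab hP T hM hl (hw l hl)
    obtain ⟨j, rfl⟩ := h2 v hlv
    have hj : γ ^ (j % 2 ^ lev l) • w l = γ ^ j • w l := (orb h1 _ _).2 (Nat.mod_modEq _ _)
    rw [sum_eq_single_of_mem l hl, sum_eq_single_of_mem (j % 2 ^ lev l)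
      (mem_range.2 (Nat.mod_lt _ (by positivity))), if_pos hj, hj]
    · intro i hi hne
      refine if_neg fun e => hne ?_
      rw [← (orb h1 _ _).1 e, Nat.mod_eq_of_lt (mem_range.1 hi)]
    · refine fun l' hl' hne => sum_eq_zero fun i _ => if_neg fun e => hne ?_
      exact same hl' hl (by rw [← e, nat_smul]; exact hw l' hl') hlv
  · rw [hc v hv, eq_comm]
    refine sum_eq_zero fun l hl => sum_eq_zero fun i _ => if_neg fun e => hv ?_
    exact (mem_d T.sqf _).2 ⟨l, hl, by rw [← e, nat_smul]; exact hw l hl⟩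

/-- the action of one automorphism on divisors -/
noncomputable abbrev gA (g : L ≃ₐ[ℚ] L) : Dv L 2 →+ Dv L 2 := DistribSMul.toAddMonoidHom _ g

theorem gA_it (g : L ≃ₐ[ℚ] L) (n : ℕ) (c : Dv L 2) : (gA g)^[n] c = g ^ n • c :=
  smul_iterate_apply g n c

/-- the coefficient of a divisor along an orbit -/
noncomputable def co {B : Type} [CommRing B] (γ : L ≃ₐ[ℚ] L) (w : ℕ → Pr L 2) (t : B)
    (c : Dv L 2) (l : ℕ) : B :=
  ∑ i ∈ range (2 ^ lev l), (c (γ ^ i • w l) : B) * (1 + t) ^ i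

variable {B : Type} [CommRing B] {t : B} {Z : Dv L 2 →+ B ⧸ Ideal.span {(4 : B)}}
  {I O : AddSubgroup (Dv L 2)}

theorem Z_si (F : Fn (gA γ) I (Rm L d) O t Z) {w : Pr L 2} (hw : (d : 𝓞 L) ∈ w.1.asIdeal)
    (i : ℕ) : Z (Finsupp.single (γ ^ i • w) 1) = m4 ((1 + t) ^ i) * Z (Finsupp.single w 1) := by
  induction i with
  | zero => simp
  | succ i ih =>
    rw [pow_succ', mul_smul, ← smul_si, pow_succ', map_mul, mul_assoc, ← ih]
    exact F.eqv _ (si_mem (by rwa [nat_smul]))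

theorem ZS (hP : STP) (T : Tw L d M s θ σ γ) (hM : am d ≤ M) {w : ℕ → Pr L 2}
    (hw : ∀ l ∈ d.primeFactors, (l : 𝓞 L) ∈ (w l).1.asIdeal) (F : Fn (gA γ) I (Rm L d) O t Z)
    {y : ℕ → B} (hy : ∀ l ∈ d.primeFactors, m4 (2 * y l) = Z (Finsupp.single (w l) 1))
    {c : Dv L 2} (hc : c ∈ Rm L d) :
    Z c = m4 (2 * ∑ l ∈ d.primeFactors, co γ w t c l * y l) := by
  conv_lhs => rw [decomp hP T hM hw hc]
  rw [map_sum, mul_sum, map_sum]
  refine sum_congr rfl fun l hl => ?_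
  rw [map_sum, co, sum_mul, mul_sum, map_sum]
  refine sum_congr rfl fun i _ => ?_
  rw [map_zsmul, Z_si F ((mem_d T.sqf _).2 ⟨l, hl, hw l hl⟩), ← hy l hl, zsmul_eq_mul,
    ← map_intCast (m4 (B := B)), ← map_mul, ← map_mul]
  congr 1
  ring

theorem lying {F : Type} [Field F] [NumberField F] (j : F →+* L) {l : ℕ} (hl : l.Prime)
    (h2 : l ≠ 2) (ψ : 𝓞 F →+* ZMod l) : ∃ w : Pr L 2, (l : 𝓞 L) ∈ w.1.asIdeal ∧
      ∀ z, ψ z = 0 ↔ RingOfIntegers.mapRingHom j z ∈ w.1.asIdeal := by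
  let := j.toAlgebra
  have := Fact.mk hl
  have := RingHom.ker_isPrime ψ
  obtain ⟨Q, -, hQ, e⟩ := Ideal.exists_ideal_over_prime_of_isIntegral (S := 𝓞 L)
    (RingHom.ker ψ) ⊥ (by simp [← RingHom.ker_eq_comap_bot])
  have h : ∀ z, ψ z = 0 ↔ RingOfIntegers.mapRingHom j z ∈ Q := fun z => by
    rw [← RingHom.mem_ker, ← e]
    rfl
  have hlQ : (l : 𝓞 L) ∈ Q := by simpa using (h l).1 (by simp)
  let v : Sp L := ⟨Q, hQ, fun h0 => hl.ne_zero (by simpa [h0] using hlQ)⟩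
  exact ⟨⟨v, not_cop (w := v) ((Nat.coprime_primes Nat.prime_two hl).2 h2.symm) hlQ⟩, hlQ, h⟩

theorem s_ne (T : Tw L d M s θ σ γ) : s ≠ 0 := by
  rintro rfl
  have h := T.sq
  rw [zero_pow two_ne_zero, eq_comm, Nat.cast_eq_zero] at h
  exact T.sqf.ne_zero h

theorem val_l (hP : STP) (T : Tw L d M s θ σ γ) {l : ℕ} {w : Pr L 2} (hl : l ∈ d.primeFactors)
    (hw : (l : 𝓞 L) ∈ w.1.asIdeal) : w.1.valuation L (l : L) = WithZero.exp (-2) := by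
  obtain ⟨e, he⟩ := Nat.dvd_of_mem_primeFactors hl
  have h1 := (hP.ram L d M s θ σ γ T w ((mem_d T.sqf _).2 ⟨l, hl, hw⟩)).2.1
    (Un.mk s (s_ne T)) rfl
  have h2 := val_eq_exp w.1 (Un.mk s (s_ne T))
  have h3 := congrArg (w.1.valuation L) T.sq
  rw [h1, Un.val_mk] at h2
  have hc : e.Coprime l := (Nat.squarefree_mul_iff.1 (he ▸ T.sqf : Squarefree (l * e))).1.symm
  rw [map_pow, h2, he, Nat.cast_mul, map_mul, val_coprime hw hc, mul_one] at h3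
  rw [← h3, ← WithZero.exp_nsmul]
  rfl

end SOL

end Pool.Agent.MP_1246c0_nt.H12
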